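import Mathlib
import Pool.Agent.W_MP_950aae_pr.Defs
import Pool.Agent.W_MP_950aae_pr.Main
import Pool.Agent.W_MP_950aae_pr.HkTree

/-!
At the critical value `p_bt` for containing an embedded full binary tree, percolation on the regular
triangulation `H_k`, `k ≥ 7`, contains such a tree with positive probability. The same holds on
every transitive locally finite graph that contains a full binary tree.
-/

namespace Pool.Agent.Results.MP_950aae_pr.FirstOrderTransition

open Pool.Agent.W_MP_950aae_pr

/-- `ℙ_{p_bt}(E) > 0` on `H_k` for every `k ≥ 7` (second part), and on every countable transitive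
locally finite graph that contains a full binary tree (first part). -/
theorem result :
    (∀ (V : Type) [Countable V] (G : SimpleGraph V), (∀ v, (G.neighborSet v).Finite) →
      (∀ u v : V, ∃ φ : G ≃g G, φ u = v) → T2.IsContained G →
      0 < perc G (pbt G) (treeEvent G)) ∧
    ∀ k : ℕ, 7 ≤ k → 0 < perc (Hk k) (pbt (Hk k)) (treeEvent (Hk k)) :=
  ⟨fun _ _ _ hG htr hT => main hG htr hT,
    fun k hk => main (Hk_locallyFinite k (by omega)) (Hk_transitive k) (Hk_contains hk)⟩

end Pool.Agent.Results.MP_950aae_pr.FirstOrderTransition
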